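import Pool.Agent.Helper79.HC.Step

/-!
# BLOCK HC-3: the junction with hexagons

`Conf.longEar'`: the proof of `Conf.longEar` (HY/Ear.lean) with `.hexes s` (Conf2) added after
`.quads q` (first step `h.split.move : Conf2 (z + 2) 3 4 (x + 1) (5 ::ₘ M)`, then
`.tris a |>.tris2 b |>.quads q |>.hexes s |>.forget`, then `.rot.move1.flip`).

`g_J`: the proof of `win_J` (HY/Ear.lean) with `.hexes s1`, `.longEar' a2 b2 q2 s2`, `.hexes s3`.
-/

namespace Pool.Agent.Helper79.HX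

open Finset

theorem Conf.longEar' {z x : ℕ} {M : Multiset ℕ} (h : Conf z 3 x M) (a b q s : ℕ) :
    Conf (x + 2) 3 (5 + 2 * a + 3 * b + q + 3 * s)
      ((z + 3 + 3 * a + 2 * b + q + 3 * s) ::ₘ (M +
      Multiset.replicate (1 + a + b + 2 * s) 3 + Multiset.replicate (1 + 2 * a + 2 * b) 5 +
      Multiset.replicate q 4 + Multiset.replicate (2 * s) 6)) := by
  have h1 : Conf2 (z + 2) 3 4 (x + 1) (5 ::ₘ M) := h.split.move
  have h2 := ((((h1.tris a).tris2 b).quads q).hexes s).forget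
  have h3 := h2.rot.move1.flip
  have e1 : x + 1 + 1 = x + 2 := by ring
  have e2 : 4 + 2 * a + 3 * b + q + 3 * s + 1 = 5 + 2 * a + 3 * b + q + 3 * s := by ring
  have e3 : z + 2 + 3 * a + 2 * b + q + 3 * s + 1 = z + 3 + 3 * a + 2 * b + q + 3 * s := by ring
  rw [e1, e2, e3] at h3
  refine h3.congr ?_
  intro k
  simp only [Multiset.count_add, Multiset.count_cons, Multiset.replicate_add,
    Multiset.replicate_one, Multiset.count_singleton]
  omega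

end Pool.Agent.Helper79.HX

namespace Pool.Agent.Helper79.HC

open Finset Pool.Agent.Helper79.HX

theorem g_J (p a1 b1 q1 s1 a2 b2 q2 s2 a3 b3 q3 s3 g : ℕ) :
    WinG (p + 3 * a1 + 2 * b1 + q1 + 3 * s1 + 3 + 3 * a2 + 2 * b2 + q2 + 3 * s2)
      {2 * a1 + 3 * b1 + q1 + 3 * s1 + 3 + 3 * a3 + 2 * b3 + q3 + 3 * s3 + g,
        2 + 2 * a2 + 3 * b2 + q2 + 3 * s2 + 2 * a3 + 3 * b3 + q3 + 3 * s3}
      (1 + a1 + b1 + a2 + b2 + a3 + b3) (2 * s1 + 2 * s2 + 2 * s3) (q1 + q2 + q3) := by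
  intro z M hz
  have h1 := ((((hz.grow p).tris a1).tris2 b1).quads q1).hexes s1
  have h2 := ((((h1.longEar' a2 b2 q2 s2).tris a3).tris2 b3).quads q3).hexes s3
  have h3 := (h2.swap.move1.grow g).fin
  have e1 : z + p + 3 * a1 + 2 * b1 + q1 + 3 * s1 + 3 + 3 * a2 + 2 * b2 + q2 + 3 * s2 =
    z + (p + 3 * a1 + 2 * b1 + q1 + 3 * s1 + 3 + 3 * a2 + 2 * b2 + q2 + 3 * s2) := by ring
  have e2 : 4 + 2 * a1 + 3 * b1 + q1 + 3 * s1 + 2 + 3 * a3 + 2 * b3 + q3 + 3 * s3 + 1 + g =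
    2 * a1 + 3 * b1 + q1 + 3 * s1 + 3 + 3 * a3 + 2 * b3 + q3 + 3 * s3 + g + 4 := by ring
  have e3 : 5 + 2 * a2 + 3 * b2 + q2 + 3 * s2 + 2 * a3 + 3 * b3 + q3 + 3 * s3 + 1 =
    2 + 2 * a2 + 3 * b2 + q2 + 3 * s2 + 2 * a3 + 3 * b3 + q3 + 3 * s3 + 4 := by ring
  rw [e1, e2, e3] at h3
  refine ⟨p + 2 * a1 + 2 * b1 + (1 + 2 * a2 + 2 * b2) + 2 * a3 + 2 * b3 + g, h3.congr ?_⟩
  intro k
  simp only [Multiset.count_add, Multiset.count_cons, Multiset.count_singleton,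
    Multiset.insert_eq_cons, Multiset.map_cons, Multiset.map_singleton, Multiset.replicate_add,
    Multiset.replicate_one]
  omega

end Pool.Agent.Helper79.HC
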