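import Pool.Agent.Helper79.HC.Pour
import Pool.Agent.Helper79.HC.Junc

/-!
# BLOCK HC-6: three faces

`Jdist6`: put `hH = H - 3 - (2 t1 + q1 + 3 s1)`, `hC = c1 - 3 - (2 t1 + q1 + 3 s1)` (both at least
3).  In `g_J` take `q1, s1` as given, `a1 + b1 = t1` (load on `H` of the first chain:
`2 t1 + a1 + q1 + 3 s1`, on `c1`: `2 t1 + b1 + q1 + 3 s1`), and `a2 + a3 = a`, `b2 + b3 = b`,
`q2 + q3 = q`, `s2 + s3 = s`.  The flexible loads `3 s2 + 3 a2 + 2 b2 + q2 + a1` on `H` must be at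
most `hH` (`p` fills the gap), and `3 s3 + 3 a3 + 2 b3 + q3 + b1` on `c1` at most `hC` (`g` fills
the gap); their sum is `U + t1`, `U = 3 a + 2 b + q + 3 s`, and `U + t1 + 14 ≤ hH + hC`.  Greedy:
`s2 = min s (hH / 3)`; if `s2 < s` stop (all the other units and `b1 = t1` go to `c1`; less than 3
is wasted on `H`); otherwise `a2 = min a ((hH - 3 s) / 3)`; if `a2 < a` stop; otherwise
`b2 = min b ((hH - 3 s - 3 a) / 2)`; if `b2 < b` stop; otherwise
`q2 = min q (hH - 3 s - 3 a - 2 b)`; if `q2 < q` stop; otherwise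
`a1 = min t1 (hH - 3 s - 3 a - 2 b - q)`.  (Compare `Jdist` in HY/Fill.lean; a helper statement
`key` with all the numbers as variables and the two equations as hypotheses is convenient.)

`base6`: put `v = 3 t + b`.
 (1) `3 A + v + 30 ≤ H`: `star6` with `n = 2`, `α = 0`.
 (2) `3 A + v + 30 ≤ c1`: `dom16` with `C = {c2}`.
 (3) `H ≤ 58`: `g_S (H - 1) 0 0 0 0` and `g_pour` for the hub `c1 - 1` and `c2`.
 (4) `3 A + v ≤ c2 + 1`: `nearpour6` (with `C = 0`).
 (5) otherwise `Jdist6`: `X = c2 - 2 ≥ 18` must be written as `2 a + 3 b5 + q + 3 s` with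
   `a + b5 + 1 ≤ A`, `q ≤ b`, `s ≤ t`, `b5 + 2 A + v + 10 ≤ H + c2` and
   `b5 + 2 A + v + 10 ≤ c1 + c2`:
   `X ≤ b`: `q = X`;
   `b < X ≤ b + 3 t`, `r = X - b = 3 k + ρ`: `ρ = 0`: `q = b, s = k`; `ρ = 2`: `q = b, s = k,
     a = 1`; `ρ = 1, k ≥ 1`: `q = b, s = k - 1, a = 2`; `r = 1`: `q = b - 1, a = 1`;
   `X > b + 3 t`, `r = X - b - 3 t`: `r = 1`: `t ≥ 1`: `q = b, s = t - 1, a = 2`, `t = 0`:
     `q = b - 1, a = 1`; `r ≥ 2`: `q = b, s = t`, and `2 a + 3 b5 = r` with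
     `m = min (H + c2 - 2 A - v - 10) (c1 + c2 - 2 A - v - 10)` (at least 50): if `r ≤ 3 m` take
     `b5 = r / 3` if `r % 3 = 0` or (`r / 3 - 1`, `a = 2`) if `r % 3 = 1`, `r ≥ 4`, (`r / 3`,
     `a = 1`) if `r % 3 = 2`; otherwise `b5 = m` or `m - 1` with `r - 3 b5` even,
     `a = (r - 3 b5) / 2`.  Then `a + b5 + 1 ≤ A` because `X ≤ 3 A + v - 4` (first case) or
     because of the sizes (`H ≥ 59`, second case).
   Then `Jdist6` with `t1 = A - 1 - a - b5`, `q1 = b - q`, `s1 = t - s`: the three conditions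
   follow from `b5 + 2 A + v + 10 ≤ H + c2`, `≤ c1 + c2`, and `hW`.
-/

namespace Pool.Agent.Helper79.HC

open Finset Pool.Agent.Helper79.HX

theorem Jdist6 {H c1 a b q s t1 q1 s1 : ℕ} (h1 : 2 * t1 + q1 + 3 * s1 + 6 ≤ H)
    (h2 : 2 * t1 + q1 + 3 * s1 + 6 ≤ c1)
    (h3 : 5 * t1 + 2 * q1 + 6 * s1 + 20 + 3 * a + 2 * b + q + 3 * s ≤ H + c1) :
    WinG H {c1, 2 + 2 * a + 3 * b + q + 3 * s} (1 + t1 + a + b) (2 * (s1 + s)) (q1 + q) := by
  have key : ∀ p a1 b1 a2 b2 q2 s2 : ℕ, a1 + b1 = t1 → a2 ≤ a → b2 ≤ b → q2 ≤ q → s2 ≤ s →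
      p + 3 * a1 + 2 * b1 + q1 + 3 * s1 + 3 + 3 * a2 + 2 * b2 + q2 + 3 * s2 = H →
      2 * a1 + 3 * b1 + q1 + 3 * s1 + 3 + 3 * (a - a2) + 2 * (b - b2) + (q - q2) +
        3 * (s - s2) ≤ c1 →
      WinG H {c1, 2 + 2 * a + 3 * b + q + 3 * s} (1 + t1 + a + b) (2 * (s1 + s)) (q1 + q) := by
    intro p a1 b1 a2 b2 q2 s2 k1 k2 k3 k4 k5 k6 k7
    refine (g_J p a1 b1 q1 s1 a2 b2 q2 s2 (a - a2) (b - b2) (q - q2) (s - s2)
      (c1 - (2 * a1 + 3 * b1 + q1 + 3 * s1 + 3 + 3 * (a - a2) + 2 * (b - b2) + (q - q2) +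
        3 * (s - s2)))).congr k6 ?_ ?_ ?_ ?_
    · rw [Multiset.insert_eq_cons, Multiset.insert_eq_cons]
      congr 1
      · omega
      · congr 1; omega
    · omega
    · omega
    · omega
  obtain ⟨h, hh⟩ : ∃ h, h + (2 * t1 + q1 + 3 * s1 + 3) = H :=
    ⟨H - (2 * t1 + q1 + 3 * s1 + 3), by omega⟩
  rcases Nat.lt_or_ge h (3 * s) with d0 | d0
  · exact key (h % 3) 0 t1 0 0 0 (h / 3) (by omega) (by omega) (by omega) (by omega) (by omega)
      (by omega) (by omega)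
  rcases Nat.lt_or_ge h (3 * s + 3 * a) with d1 | d1
  · exact key ((h - 3 * s) % 3) 0 t1 ((h - 3 * s) / 3) 0 0 s (by omega) (by omega) (by omega)
      (by omega) (by omega) (by omega) (by omega)
  rcases Nat.lt_or_ge h (3 * s + 3 * a + 2 * b) with d2 | d2
  · exact key ((h - 3 * s - 3 * a) % 2) 0 t1 a ((h - 3 * s - 3 * a) / 2) 0 s (by omega)
      (by omega) (by omega) (by omega) (by omega) (by omega) (by omega)
  rcases Nat.lt_or_ge h (3 * s + 3 * a + 2 * b + q) with d3 | d3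
  · exact key 0 0 t1 a b (h - 3 * s - 3 * a - 2 * b) s (by omega)
      (by omega) (by omega) (by omega) (by omega) (by omega) (by omega)
  rcases Nat.lt_or_ge h (3 * s + 3 * a + 2 * b + q + t1) with d4 | d4
  · exact key 0 (h - 3 * s - 3 * a - 2 * b - q) (t1 - (h - 3 * s - 3 * a - 2 * b - q)) a b q s
      (by omega) (by omega) (by omega) (by omega) (by omega) (by omega) (by omega)
  · exact key (h - 3 * s - 3 * a - 2 * b - q - t1) t1 0 a b q s (by omega) (by omega) (by omega)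
      (by omega) (by omega) (by omega) (by omega)

/-- the arithmetic of the last case of `base6` -/
private theorem split52 {H A t b c1 c2 : ℕ} (hA : 8 ≤ A) (h3 : 20 ≤ c2)
    (h21 : c2 ≤ c1) (h1 : 2 * A + 3 * t + b + 60 ≤ c1 + c2)
    (h2 : 2 * A + 3 * t + b + 60 ≤ H + c2) (hH : 59 ≤ H) (hn : c2 + 1 < 3 * A + 3 * t + b) :
    ∃ a b5 q s : ℕ, 2 + 2 * a + 3 * b5 + q + 3 * s = c2 ∧ a + b5 + 1 ≤ A ∧ q ≤ b ∧ s ≤ t ∧
      b5 + 2 * A + 3 * t + b + 10 ≤ H + c2 ∧ b5 + 2 * A + 3 * t + b + 10 ≤ c1 + c2 := by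
  obtain ⟨X, hX⟩ : ∃ X, X + 2 = c2 := ⟨c2 - 2, by omega⟩
  rcases Nat.lt_or_ge b X with e1 | e1
  swap
  · exact ⟨0, 0, X, 0, by omega, by omega, by omega, by omega, by omega, by omega⟩
  rcases Nat.lt_or_ge (b + 3 * t) X with e2 | e2
  swap
  · obtain ⟨r, hr⟩ : ∃ r, b + r = X := ⟨X - b, by omega⟩
    rcases Nat.lt_or_ge r 2 with e3 | e3
    · exact ⟨1, 0, b - 1, 0, by omega, by omega, by omega, by omega, by omega, by omega⟩
    · have hm : r % 3 < 3 := Nat.mod_lt _ (by norm_num)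
      have hd := Nat.div_add_mod r 3
      rcases (by omega : r % 3 = 0 ∨ r % 3 = 1 ∨ r % 3 = 2) with e4 | e4 | e4
      · exact ⟨0, 0, b, r / 3, by omega, by omega, by omega, by omega, by omega, by omega⟩
      · exact ⟨2, 0, b, r / 3 - 1, by omega, by omega, by omega, by omega, by omega, by omega⟩
      · exact ⟨1, 0, b, r / 3, by omega, by omega, by omega, by omega, by omega, by omega⟩
  obtain ⟨r, hr⟩ : ∃ r, b + 3 * t + r = X := ⟨X - b - 3 * t, by omega⟩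
  rcases Nat.lt_or_ge r 2 with e3 | e3
  · rcases Nat.eq_zero_or_pos t with e5 | e5
    · exact ⟨1, 0, b - 1, 0, by omega, by omega, by omega, by omega, by omega, by omega⟩
    · exact ⟨2, 0, b, t - 1, by omega, by omega, by omega, by omega, by omega, by omega⟩
  obtain ⟨m, hm1, hm2, hm3⟩ : ∃ m, m + 2 * A + 3 * t + b + 10 ≤ H + c2 ∧
      m + 2 * A + 3 * t + b + 10 ≤ c1 + c2 ∧ (m + 2 * A + 3 * t + b + 10 = H + c2 ∨
      m + 2 * A + 3 * t + b + 10 = c1 + c2) := by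
    rcases Nat.le_total H c1 with e6 | e6
    · exact ⟨H + c2 - (2 * A + 3 * t + b + 10), by omega, by omega, by omega⟩
    · exact ⟨c1 + c2 - (2 * A + 3 * t + b + 10), by omega, by omega, by omega⟩
  rcases Nat.lt_or_ge (3 * m) r with e7 | e7
  · have hp : (r - 3 * m) % 2 < 2 := Nat.mod_lt _ (by norm_num)
    rcases (by omega : (r - 3 * m) % 2 = 0 ∨ (r - 3 * m) % 2 = 1) with e8 | e8
    · exact ⟨(r - 3 * m) / 2, m, b, t, by omega, by omega, by omega, by omega, by omega,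
        by omega⟩
    · exact ⟨(r - 3 * m + 3) / 2, m - 1, b, t, by omega, by omega, by omega, by omega, by omega,
        by omega⟩
  · have hd := Nat.div_add_mod r 3
    rcases (by omega : r % 3 = 0 ∨ r % 3 = 1 ∨ r % 3 = 2) with e4 | e4 | e4
    · exact ⟨0, r / 3, b, t, by omega, by omega, by omega, by omega, by omega, by omega⟩
    · exact ⟨2, r / 3 - 1, b, t, by omega, by omega, by omega, by omega, by omega, by omega⟩
    · exact ⟨1, r / 3, b, t, by omega, by omega, by omega, by omega, by omega, by omega⟩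

theorem base6 {H A t b c1 c2 : ℕ} (hA : 8 ≤ A) (h3 : 20 ≤ c2) (h21 : c2 ≤ c1) (hH : 1 ≤ H)
    (hW : 5 * A + 6 * t + 2 * b + 200 ≤ H + c1 + c2) (h1 : 2 * A + 3 * t + b + 60 ≤ c1 + c2)
    (h2 : 2 * A + 3 * t + b + 60 ≤ H + c2) : WinG H {c1, c2} A (2 * t) b := by
  rw [Multiset.insert_eq_cons]
  rcases Nat.lt_or_ge H (3 * A + 3 * t + b + 30) with d1 | d1
  swap
  · refine (star6 2 (c1 ::ₘ {c2}) H A 0 t b (by simp) ?_ (Or.inr (by omega)) (by omega) ?_).congr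
      rfl rfl rfl (by omega) rfl
    · intro c hc
      rw [Multiset.mem_cons, Multiset.mem_singleton] at hc
      omega
    · rw [Multiset.sum_cons, Multiset.sum_singleton]; omega
  rcases Nat.lt_or_ge c1 (3 * A + 3 * t + b + 30) with d2 | d2
  swap
  · refine dom16 ?_ ?_ hH ?_ ?_
    · intro c hc
      rw [Multiset.mem_singleton] at hc
      omega
    · rw [Multiset.card_singleton]; omega
    · rw [Multiset.card_singleton]; omega
    · rw [Multiset.card_singleton, Multiset.sum_singleton]; omega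
  have h0 : ∀ c ∈ (0 : Multiset ℕ), 3 ≤ c := by simp
  rcases Nat.lt_or_ge H 59 with d3 | d3
  · have h5 : WinG (c1 - 1) (c2 ::ₘ 0) A (2 * t) b :=
      g_pour h0 (by omega) (by omega) (by omega)
    exact (g_S (H - 1) 0 0 0 0 h5).congr (by omega) (by
      rw [Multiset.cons_zero]; congr 1; omega) (by omega) (by omega) (by omega)
  rcases Nat.lt_or_ge (c2 + 1) (3 * A + 3 * t + b) with d4 | d4
  swap
  · exact nearpour6 (C := 0) (by omega) h0 hH (by omega) (by omega)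
  obtain ⟨a, b5, q, s, k1, k2, k3, k4, k5, k6⟩ := split52 hA h3 h21 h1 h2 d3 d4
  refine (Jdist6 (H := H) (c1 := c1) (a := a) (b := b5) (q := q) (s := s) (t1 := A - 1 - a - b5)
    (q1 := b - q) (s1 := t - s) (by omega) (by omega) (by omega)).congr rfl ?_ (by omega)
    (by omega) (by omega)
  rw [Multiset.insert_eq_cons, k1]

end Pool.Agent.Helper79.HC
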