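import Pool.Agent.Helper79.HC.Base

/-!
# The main construction with hexagons
-/

namespace Pool.Agent.Helper79.HC

open Finset Pool.Agent.Helper79.HX

/-- Realise virtual quadrangles exactly on the face which is filled. -/
theorem roundL {a b5 q b t E : ℕ} (hx : 19 ≤ 2 * a + 3 * b5 + q) (hE : 2 ≤ E)
    (hq : q ≤ 3 * t + b + 3 * E) (ht : 1 ≤ t) :
    ∃ a' b' q' s, 2 * a' + 3 * b' + q' + 3 * s = 2 * a + 3 * b5 + q ∧ q' ≤ b ∧ s ≤ t ∧
      a' + b' ≤ a + b5 + E ∧ a' ≤ a + 2 ∧ b' ≤ b5 + 1 + E ∧
      3 * a' + 2 * b' + q' + 3 * s ≤ 3 * a + 2 * b5 + q + 3 ∧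
      (s < t → a' + b' ≤ a + b5 + 2 ∧ b' ≤ b5 + 1) := by
  by_cases c0 : q ≤ b
  · exact ⟨a, b5, q, 0, by omega, by omega, by omega, by omega, by omega, by omega, by omega,
      fun _ => by omega⟩
  by_cases c1 : q = b + 1
  · by_cases c2 : 1 ≤ b
    · exact ⟨a + 1, b5, b - 1, 0, by omega, by omega, by omega, by omega, by omega, by omega,
        by omega, fun _ => by omega⟩
    by_cases c3 : 1 ≤ a
    · exact ⟨a - 1, b5 + 1, 0, 0, by omega, by omega, by omega, by omega, by omega, by omega,
        by omega, fun _ => by omega⟩
    · exact ⟨2, b5 - 1, 0, 0, by omega, by omega, by omega, by omega, by omega, by omega,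
        by omega, fun _ => by omega⟩
  by_cases c2 : (q - b) % 3 = 0
  · by_cases c3 : (q - b) / 3 ≤ t
    · exact ⟨a, b5, b, (q - b) / 3, by omega, by omega, by omega, by omega, by omega, by omega,
        by omega, fun _ => by omega⟩
    · exact ⟨a, b5 + ((q - b) / 3 - t), b, t, by omega, by omega, by omega, by omega, by omega,
        by omega, by omega, fun _ => by omega⟩
  by_cases c3 : (q - b) % 3 = 2
  · by_cases c4 : (q - b) / 3 ≤ t
    · exact ⟨a + 1, b5, b, (q - b) / 3, by omega, by omega, by omega, by omega, by omega,
        by omega, by omega, fun _ => by omega⟩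
    · exact ⟨a + 1, b5 + ((q - b) / 3 - t), b, t, by omega, by omega, by omega, by omega,
        by omega, by omega, by omega, fun _ => by omega⟩
  · by_cases c4 : (q - b) / 3 - 1 ≤ t
    · exact ⟨a + 2, b5, b, (q - b) / 3 - 1, by omega, by omega, by omega, by omega, by omega,
        by omega, by omega, fun _ => by omega⟩
    · exact ⟨a + 2, b5 + ((q - b) / 3 - 1 - t), b, t, by omega, by omega, by omega, by omega,
        by omega, by omega, by omega, fun _ => by omega⟩

theorem sm_zero {C : Multiset ℕ} (h : ∀ c ∈ C, 20 ≤ c) : sm C = 0 := by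
  unfold sm
  rw [Multiset.filter_eq_nil.2]
  · simp
  · intro c hc
    have := h c hc
    omega

/-- `main5` for large faces -/
theorem main5' {n H A B : ℕ} {C : Multiset ℕ} (hn : Multiset.card C = n)
    (hC : ∀ c ∈ C, 20 ≤ c) (hH : 1 ≤ H) (hW : 5 * A + 2 * B + 2 * n + 152 ≤ H + C.sum)
    (hs : 2 * A + B + 1 + n ≤ C.sum) (hc : ∀ c ∈ C, 2 * A + B + 1 + c + n ≤ H + C.sum) :
    WinG H C A 0 B := by
  have hT := TT_le n
  exact g_of_win (main5 n H A B C hn (fun c hc' => by have := hC c hc'; omega) hH
    (by rw [sm_zero hC]; omega) (by omega) hs hc)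

set_option maxRecDepth 4000 in
theorem main6 : ∀ (n H A t b : ℕ) (C : Multiset ℕ), Multiset.card C = n →
    (∀ c ∈ C, 20 ≤ c) → 1 ≤ H → 5 * n + 10 ≤ A →
    5 * A + 6 * t + 2 * b + 100 * (n + 1) + 100 * (n + 1) + 100 * (n + 1) ≤ H + C.sum →
    2 * A + 3 * t + b + 60 * (n + 1) ≤ C.sum →
    (∀ c ∈ C, 2 * A + 3 * t + b + c + 60 * (n + 1) ≤ H + C.sum) →
    WinG H C A (2 * t) b := by
  intro n
  induction n with
  | zero =>
    intro H A t b C hn _ _ _ _ hs _
    rw [Multiset.card_eq_zero] at hn
    subst hn
    rw [Multiset.sum_zero] at hs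
    omega
  | succ n ih =>
    intro H A t b C hn hC hH hA hW hs hc
    have h3 : ∀ c ∈ C, 3 ≤ c := fun c hc' => by have := hC c hc'; omega
    rcases Nat.lt_or_ge n 1 with n0 | n0
    · obtain rfl : n = 0 := by omega
      obtain ⟨y, rfl⟩ := Multiset.card_eq_one.1 hn
      rw [Multiset.sum_singleton] at hs hW
      have h1 := hc y (by simp)
      rw [Multiset.sum_singleton] at h1
      exact g_pour (C := 0) (by simp) (by omega) (by omega) (by omega)
    rcases Nat.lt_or_ge n 2 with n1 | n1
    · obtain rfl : n = 1 := by omega
      obtain ⟨c1, c2, C', rfl, h21, -⟩ := decomp C (by omega)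
      simp only [Multiset.card_cons] at hn
      have : Multiset.card C' = 0 := by omega
      rw [Multiset.card_eq_zero] at this
      subst this
      simp only [Multiset.sum_cons, Multiset.sum_zero] at hs hc hW
      have h1 := hc c1 (by simp)
      have h3' := hC c2 (by simp)
      exact base6 (by omega) h3' h21 hH (by omega) (by omega) (by omega)
    · obtain ⟨n, rfl⟩ : ∃ k, n = k + 2 := ⟨n - 2, by omega⟩
      clear n0 n1
      rcases Nat.eq_zero_or_pos t with ht | ht
      · subst ht
        exact main5' hn hC hH (by omega) (by omega) (fun c hc' => by have := hc c hc'; omega)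
      obtain ⟨M, M2, m, C', rfl, hm, hM, hC'⟩ := decomp3 C (by omega)
      simp only [Multiset.card_cons] at hn
      have hcard : Multiset.card C' = n := by omega
      have hm3 := hC m (by simp)
      have hcM := hc M (by simp)
      have hC2 : ∀ c ∈ M2 ::ₘ m ::ₘ C', 20 ≤ c := fun c hc' =>
        hC c (Multiset.mem_cons_of_mem hc')
      have hfM : ∀ c ∈ M2 ::ₘ m ::ₘ C', c ≤ M2 := by
        intro c hc'
        simp only [Multiset.mem_cons] at hc'
        rcases hc' with h | h | h
        · omega
        · omega
        · exact (hC' c h).2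
      simp only [Multiset.sum_cons] at hs hW hcM
      -- a small hub
      rcases Nat.lt_or_ge 30 H with k0 | k0
      swap
      · have h5 := ih (M - 1) A t b (M2 ::ₘ m ::ₘ C')
          (by simp only [Multiset.card_cons]; omega) hC2 (by omega) (by omega)
          (by simp only [Multiset.sum_cons]; omega) (by simp only [Multiset.sum_cons]; omega)
          (by
            intro c hc'
            have := hfM c hc'
            simp only [Multiset.sum_cons]
            omega)
        exact (g_S (H - 1) 0 0 0 0 h5).congr (by omega) (by congr 1; omega) (by omega)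
          (by omega) (by omega)
      -- dominant cases
      rcases Nat.lt_or_ge H (3 * A + 3 * t + b + 10 * (n + 3 + 1)) with d1 | d1
      swap
      · have := star6 (n + 3) (M ::ₘ M2 ::ₘ m ::ₘ C') H A 0 t b
          (by simp only [Multiset.card_cons]; omega) hC (Or.inr (by omega)) (by omega)
          (by simp only [Multiset.sum_cons]; omega)
        exact this.congr rfl rfl rfl (by omega) rfl
      rcases Nat.lt_or_ge M (3 * A + 3 * t + b + 10 * (n + 2 + 1) + 10) with d2 | d2
      swap
      · exact dom16 hC2 (by simp only [Multiset.card_cons]; omega) hH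
          (by simp only [Multiset.card_cons]; omega)
          (by simp only [Multiset.card_cons, Multiset.sum_cons]; omega)
      rcases Nat.lt_or_ge (m + 1) (3 * A + 3 * t + b) with d3 | d3
      swap
      · exact nearpour6 (by omega) (fun c hc' => h3 c (by
          simp only [Multiset.mem_cons] at hc' ⊢; tauto)) hH (by omega) (by omega)
      by_cases d4 : 2 * A + 3 * t + b + 1 ≤ H ∧ 2 * A + 3 * t + b + 2 ≤ M ∧
          5 * A + 6 * t + 2 * b + 3 ≤ H + M
      · exact g_pour (fun c hc' => h3 c (Multiset.mem_cons_of_mem hc')) d4.1 d4.2.1 d4.2.2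
      have hC3 : ∀ c ∈ M ::ₘ M2 ::ₘ C', 20 ≤ c := by
        intro c hc'
        apply hC
        simp only [Multiset.mem_cons] at hc' ⊢; tauto
      have hle3 : ∀ c ∈ M ::ₘ M2 ::ₘ C', c ≤ M := by
        intro c hc'
        simp only [Multiset.mem_cons] at hc'
        rcases hc' with h | h | h
        · omega
        · omega
        · have := hC' c h; omega
      obtain ⟨W, hWd⟩ : ∃ W, W = H + (M + (M2 + (m + C'.sum))) := ⟨_, rfl⟩
      rw [← hWd] at hW hcM
      obtain ⟨v, hv⟩ : ∃ v, v = 3 * t + b := ⟨_, rfl⟩
      obtain ⟨D, hD⟩ : ∃ D, D + (2 * A + v + 60 * (n + 3) + 20) = W :=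
        ⟨W - (2 * A + v + 60 * (n + 3) + 20), by omega⟩
      obtain ⟨E, hE⟩ : ∃ E, E = 5 * (n + 2) + 12 := ⟨_, rfl⟩
      obtain ⟨A0, hA0⟩ : ∃ A0, A = A0 + E := ⟨A - E, by omega⟩
      -- the step on the smallest face
      by_cases k1 : M + m + 2 ≤ D ∧ 2 * m + 14 ≤ 3 * (H - 4) ∧ m + 1 ≤ H - 4 + A0
      · obtain ⟨l1, l2, l3⟩ := k1
        obtain ⟨a, b5, q, e1, e2, e3, e4, e5, e6⟩ := fill (x := m) (y := H - 4) (A := A0)
          (B := v + 3 * E) (D := D) (M := M) (by omega) (by omega) (by omega) l2 l3 (by omega)
          (by omega) (by omega) (by omega)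
        obtain ⟨a', b', q', s, r1, r2, r3, r4, r5, r6, r7, r8⟩ := roundL (a := a) (b5 := b5)
          (q := q) (b := b) (t := t) (E := E) (by omega) (by omega) (by omega) ht
        rcases Nat.lt_or_ge s t with hst | hst
        · obtain ⟨r9, r10⟩ := r8 hst
          have h5 := ih (H - (3 * a' + 2 * b' + q' + 3 * s + 1)) (A - a' - b') (t - s) (b - q')
            (M ::ₘ M2 ::ₘ C') (by simp only [Multiset.card_cons]; omega) hC3 (by omega)
            (by omega) (by simp only [Multiset.sum_cons]; omega)
            (by simp only [Multiset.sum_cons]; omega)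
            (by
              intro c hc'
              have := hle3 c hc'
              simp only [Multiset.sum_cons]
              omega)
          exact (g_L a' b' q' s h5).congr (by omega) (by
            rw [Multiset.cons_swap M2 m, Multiset.cons_swap M m]; congr 1; omega)
            (by omega) (by omega) (by omega)
        · have h5 : WinG (H - (3 * a' + 2 * b' + q' + 3 * s + 1)) (M ::ₘ M2 ::ₘ C')
            (A - a' - b') 0 (b - q') :=
            main5' (n := n + 2) (by simp only [Multiset.card_cons]; omega) hC3 (by omega)
            (by simp only [Multiset.sum_cons]; omega)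
            (by simp only [Multiset.sum_cons]; omega)
            (by
              intro c hc'
              have := hle3 c hc'
              simp only [Multiset.sum_cons]
              omega)
          exact (g_L a' b' q' s h5).congr (by omega) (by
            rw [Multiset.cons_swap M2 m, Multiset.cons_swap M m]; congr 1; omega)
            (by omega) (by omega) (by omega)
      -- the step on the largest face
      · obtain ⟨a, b5, q, e1, e2, e3, e4, e5, e6⟩ := fill (x := H) (y := M) (A := A0)
          (B := v + 3 * E) (D := D) (M := M2) (by omega) (by omega) (by omega) (by omega)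
          (by omega) (by omega) (by omega) (by omega) (by omega)
        obtain ⟨q', s, p, r1, r2, r3, r4, r5⟩ : ∃ q' s p, p + q' + 3 * s = q ∧ q' ≤ b ∧ s ≤ t ∧
            p ≤ 3 * E + 2 ∧ (s < t → p ≤ 2) := by
          by_cases c0 : q ≤ b
          · exact ⟨q, 0, 0, by omega, by omega, by omega, by omega, by omega⟩
          by_cases c1 : (q - b) / 3 ≤ t
          · exact ⟨b, (q - b) / 3, (q - b) % 3, by omega, by omega, by omega, by omega,
              by omega⟩
          · exact ⟨b, t, q - b - 3 * t, by omega, by omega, by omega, by omega, by omega⟩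
        rcases Nat.lt_or_ge s t with hst | hst
        · have r6 := r5 hst
          have h5 := ih (M - (3 * a + 2 * b5 + q' + 3 * s + 1)) (A - a - b5) (t - s) (b - q')
            (M2 ::ₘ m ::ₘ C') (by simp only [Multiset.card_cons]; omega) hC2 (by omega)
            (by omega) (by simp only [Multiset.sum_cons]; omega)
            (by simp only [Multiset.sum_cons]; omega)
            (by
              intro c hc'
              have := hfM c hc'
              simp only [Multiset.sum_cons]
              omega)
          exact (g_S p b5 a q' s h5).congr (by omega) (by congr 1; omega) (by omega) (by omega)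
            (by omega)
        · have h5 : WinG (M - (3 * a + 2 * b5 + q' + 3 * s + 1)) (M2 ::ₘ m ::ₘ C')
            (A - a - b5) 0 (b - q') :=
            main5' (n := n + 2) (by simp only [Multiset.card_cons]; omega) hC2 (by omega)
            (by simp only [Multiset.sum_cons]; omega)
            (by simp only [Multiset.sum_cons]; omega)
            (by
              intro c hc'
              have := hfM c hc'
              simp only [Multiset.sum_cons]
              omega)
          exact (g_S p b5 a q' s h5).congr (by omega) (by congr 1; omega) (by omega) (by omega)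
            (by omega)

end Pool.Agent.Helper79.HC
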