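import Pool.Agent.Helper79.HY.Ear

/-!
# BLOCK HC-1: two moves with three stackings

`Conf.move3`: take the sphere `T` with marked triangle `{a, b, c}` (degrees `z, x, y`).  Stack a
new vertex `w` on `{a, b, c}`, then a new vertex `s` on `{a, b, w}`, then a new vertex `s'` on
`{b, w, c}` (written `{b, c, w}`).  The new marked triangle is `{a, w, c}`; the degrees are
`a : z + 2`, `w : 5`, `c : y + 2`, `b : x + 3`, `s : 3`, `s' : 3`.  The proof is the proof of
`Conf.move2` (file HX/Conf.lean, two stackings, no third one) with one more stacking.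

`Conf2.move3`: the same for `Conf2` (the proof of `Conf2.move2` in HY/Ear.lean with one more
stacking): stack `w` on `{a₁, a₂, a₃}`, `s` on `{a₁, a₂, w}`, `s'` on `{a₂, a₃, w}`; the new marked
triangles are `{a₁, w, a₃}` and `{a₁, a₃, a₄}`.
-/

namespace Pool.Agent.Helper79.HX

open Finset

theorem Conf.move3 {z x y : ℕ} {M : Multiset ℕ} (h : Conf z x y M) :
    Conf (z + 2) 5 (y + 2) ((x + 3) ::ₘ 3 ::ₘ 3 ::ₘ M) := by
  obtain ⟨T, a, b, c, hS, hab, hac, hbc, hT, ha, hb, hc, hM⟩ := h
  obtain ⟨w, hw⟩ := exists_fresh T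
  obtain ⟨wa, wb, wc⟩ := w_ne hT hw
  obtain ⟨va, vb, vc⟩ := mem_of_tri hT
  set T1 := stack T a b c w with hT1
  have hS1 : IsSphere T1 := stack_isSphere hab hac hbc hT hw hS
  have hf1 : ({a, b, w} : Finset ℕ) ∈ T1 := mem_stack.2 (by simp)
  have hV1 : verts T1 = insert w (verts T) := verts_stack hT
  obtain ⟨s, hs⟩ := exists_fresh T1
  obtain ⟨sa, sb, sw⟩ := w_ne hf1 hs
  have hsT : s ∉ verts T := fun h => hs (by rw [hV1]; exact Finset.mem_insert_of_mem h)
  have sc : s ≠ c := fun h => hsT (h ▸ vc)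
  set T2 := stack T1 a b w s with hT2'
  have hS2 : IsSphere T2 := stack_isSphere hab wa.symm wb.symm hf1 hs hS1
  have hf2 : ({b, c, w} : Finset ℕ) ∈ T2 := by
    rw [hT2', mem_stack]; left
    refine ⟨?_, ?_⟩
    · intro h
      have : c ∈ ({a, b, w} : Finset ℕ) := h ▸ (by simp)
      simp [hac.symm, hbc.symm, wc.symm] at this
    · rw [hT1, mem_stack]; right; right; right; rfl
  have hV2 : verts T2 = insert s (insert w (verts T)) := by
    rw [hT2', verts_stack hf1, hV1]
  obtain ⟨u, hu⟩ := exists_fresh T2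
  obtain ⟨ub, uc, uw⟩ := w_ne hf2 hu
  have huT : u ∉ verts T := fun h => hu (by
    rw [hV2]; exact Finset.mem_insert_of_mem (Finset.mem_insert_of_mem h))
  have us : u ≠ s := fun h => hu (by rw [hV2, h]; exact Finset.mem_insert_self _ _)
  have ua : u ≠ a := fun h => huT (h ▸ va)
  have hd1 := deg_stack hab hac hbc hT hw
  have hd2 := deg_stack hab wa.symm wb.symm hf1 hs
  have hd3 := deg_stack hbc wb.symm wc.symm hf2 hu
  refine ⟨stack T2 b c w u, a, w, c, stack_isSphere hbc wb.symm wc.symm hf2 hu hS2, wa.symm, hac,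
    wc, ?_, ?_, ?_, ?_, ?_⟩
  · rw [mem_stack]; left
    refine ⟨?_, ?_⟩
    · intro h
      have : a ∈ ({b, c, w} : Finset ℕ) := h ▸ (by simp)
      simp [hab, hac, wa.symm] at this
    · rw [hT2', mem_stack]; left
      refine ⟨?_, ?_⟩
      · intro h
        have : c ∈ ({a, b, w} : Finset ℕ) := h ▸ (by simp)
        simp [hac.symm, hbc.symm, wc.symm] at this
      · rw [hT1, mem_stack]; right; right; left; rw [Finset.pair_comm]
  · rw [hd3, hT2', hd2, hT1, hd1]; simp [ua.symm, hab, hac, sa.symm, wa.symm, ha]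
  · rw [hd3, hT2', hd2, hT1, hd1]; simp [uw.symm, sw.symm]
  · rw [hd3, hT2', hd2, hT1, hd1]; simp [uc.symm, sc.symm, hac.symm, hbc.symm, wc.symm, hc]
  · have h1 : verts (stack T2 b c w u) \ {a, w, c} =
        insert b (insert s (insert u (verts T \ {a, b, c}))) := by
      rw [verts_stack hf2, hV2]
      ext v
      simp only [Finset.mem_sdiff, Finset.mem_insert, Finset.mem_singleton, not_or]
      constructor
      · rintro ⟨h1 | h1 | h1 | h1, h2, h3, h4⟩
        · exact Or.inr (Or.inr (Or.inl h1))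
        · exact Or.inr (Or.inl h1)
        · exact absurd h1 h3
        · by_cases hvb : v = b
          · exact Or.inl hvb
          · exact Or.inr (Or.inr (Or.inr ⟨h1, h2, hvb, h4⟩))
      · rintro (rfl | rfl | rfl | ⟨h1, h2, h3, h4⟩)
        · exact ⟨Or.inr (Or.inr (Or.inr vb)), hab.symm, wb.symm, hbc⟩
        · exact ⟨Or.inr (Or.inl rfl), sa, sw, sc⟩
        · exact ⟨Or.inl rfl, ua, uw, uc⟩
        · exact ⟨Or.inr (Or.inr (Or.inr h1)), h2, fun h => hw (h ▸ h1), h4⟩
    rw [h1, Finset.insert_val_of_notMem (by simp [sb.symm, ub.symm]), Multiset.map_cons,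
      Finset.insert_val_of_notMem (by simp [hsT, us.symm]), Multiset.map_cons,
      Finset.insert_val_of_notMem (by simp [huT]), Multiset.map_cons]
    congr 1
    · rw [hd3, hT2', hd2, hT1, hd1]; simp [ub.symm, sb.symm, wb.symm, hb]
    · congr 1
      · rw [hd3, hT2', hd2]; simp [us.symm, sb, sc, sw]
      · congr 1
        · rw [hd3]; simp
        · rw [← hM]
          apply Multiset.map_congr rfl
          intro v hv
          have hv' : v ∈ verts T \ {a, b, c} := hv
          simp only [Finset.mem_sdiff, Finset.mem_insert, Finset.mem_singleton, not_or] at hv'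
          obtain ⟨h1, h2, h3, h4⟩ := hv'
          have hvw : v ≠ w := fun h => hw (h ▸ h1)
          have hvs : v ≠ s := fun h => hsT (h ▸ h1)
          have hvu : v ≠ u := fun h => huT (h ▸ h1)
          rw [hd3, hT2', hd2, hT1, hd1]
          simp [hvw, hvs, hvu, h2, h3, h4]

theorem Conf2.move3 {z b v x : ℕ} {M : Multiset ℕ} (h : Conf2 z b v x M) :
    Conf2 (z + 2) 5 (v + 2) x ((b + 3) ::ₘ 3 ::ₘ 3 ::ₘ M) := by
  obtain ⟨T, a, b, c, d, hS, hab, hac, had, hbc, hbd, hcd, hT, hT2, ha, hb, hc, hd, hM⟩ := h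
  obtain ⟨w, hw⟩ := exists_fresh T
  obtain ⟨wa, wb, wc⟩ := w_ne hT hw
  obtain ⟨va, vb, vc⟩ := mem_of_tri hT
  obtain ⟨-, -, vd⟩ := mem_of_tri hT2
  have wd : w ≠ d := fun h => hw (h ▸ vd)
  set T1 := stack T a b c w with hT1
  have hS1 : IsSphere T1 := stack_isSphere hab hac hbc hT hw hS
  have hf1 : ({a, b, w} : Finset ℕ) ∈ T1 := mem_stack.2 (by simp)
  have hV1 : verts T1 = insert w (verts T) := verts_stack hT
  obtain ⟨s, hs⟩ := exists_fresh T1
  obtain ⟨sa, sb, sw⟩ := w_ne hf1 hs
  have hsT : s ∉ verts T := fun h => hs (by rw [hV1]; exact Finset.mem_insert_of_mem h)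
  have sc : s ≠ c := fun h => hsT (h ▸ vc)
  have sd : s ≠ d := fun h => hsT (h ▸ vd)
  set T2 := stack T1 a b w s with hT2'
  have hS2 : IsSphere T2 := stack_isSphere hab wa.symm wb.symm hf1 hs hS1
  have hf2 : ({b, c, w} : Finset ℕ) ∈ T2 := by
    rw [hT2', mem_stack]; left
    refine ⟨?_, ?_⟩
    · intro h
      have : c ∈ ({a, b, w} : Finset ℕ) := h ▸ (by simp)
      simp [hac.symm, hbc.symm, wc.symm] at this
    · rw [hT1, mem_stack]; right; right; right; rfl
  have hV2 : verts T2 = insert s (insert w (verts T)) := by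
    rw [hT2', verts_stack hf1, hV1]
  obtain ⟨u, hu⟩ := exists_fresh T2
  obtain ⟨ub, uc, uw⟩ := w_ne hf2 hu
  have huT : u ∉ verts T := fun h => hu (by
    rw [hV2]; exact Finset.mem_insert_of_mem (Finset.mem_insert_of_mem h))
  have us : u ≠ s := fun h => hu (by rw [hV2, h]; exact Finset.mem_insert_self _ _)
  have ua : u ≠ a := fun h => huT (h ▸ va)
  have ud : u ≠ d := fun h => huT (h ▸ vd)
  have hd1 := deg_stack hab hac hbc hT hw
  have hd2 := deg_stack hab wa.symm wb.symm hf1 hs
  have hd3 := deg_stack hbc wb.symm wc.symm hf2 hu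
  refine ⟨stack T2 b c w u, a, w, c, d, stack_isSphere hbc wb.symm wc.symm hf2 hu hS2, wa.symm,
    hac, had, wc, wd, hcd, ?_, ?_, ?_, ?_, ?_, ?_, ?_⟩
  · rw [mem_stack]; left
    refine ⟨?_, ?_⟩
    · intro h
      have : a ∈ ({b, c, w} : Finset ℕ) := h ▸ (by simp)
      simp [hab, hac, wa.symm] at this
    · rw [hT2', mem_stack]; left
      refine ⟨?_, ?_⟩
      · intro h
        have : c ∈ ({a, b, w} : Finset ℕ) := h ▸ (by simp)
        simp [hac.symm, hbc.symm, wc.symm] at this
      · rw [hT1, mem_stack]; right; right; left; rw [Finset.pair_comm]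
  · rw [mem_stack]; left
    refine ⟨?_, ?_⟩
    · intro h
      have : a ∈ ({b, c, w} : Finset ℕ) := h ▸ (by simp)
      simp [hab, hac, wa.symm] at this
    · rw [hT2', mem_stack]; left
      refine ⟨?_, ?_⟩
      · intro h
        have : c ∈ ({a, b, w} : Finset ℕ) := h ▸ (by simp)
        simp [hac.symm, hbc.symm, wc.symm] at this
      · rw [hT1, mem_stack]; left
        refine ⟨?_, hT2⟩
        intro h
        have : d ∈ ({a, b, c} : Finset ℕ) := h ▸ (by simp)
        simp [had.symm, hbd.symm, hcd.symm] at this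
  · rw [hd3, hT2', hd2, hT1, hd1]; simp [ua.symm, hab, hac, sa.symm, wa.symm, ha]
  · rw [hd3, hT2', hd2, hT1, hd1]; simp [uw.symm, sw.symm]
  · rw [hd3, hT2', hd2, hT1, hd1]; simp [uc.symm, sc.symm, hac.symm, hbc.symm, wc.symm, hc]
  · rw [hd3, hT2', hd2, hT1, hd1]
    simp [ud.symm, sd.symm, had.symm, hbd.symm, hcd.symm, wd.symm, hd]
  · have h1 : verts (stack T2 b c w u) \ {a, w, c, d} =
        insert b (insert s (insert u (verts T \ {a, b, c, d}))) := by
      rw [verts_stack hf2, hV2]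
      ext v
      simp only [Finset.mem_sdiff, Finset.mem_insert, Finset.mem_singleton, not_or]
      constructor
      · rintro ⟨h1 | h1 | h1 | h1, h2, h3, h4, h5⟩
        · exact Or.inr (Or.inr (Or.inl h1))
        · exact Or.inr (Or.inl h1)
        · exact absurd h1 h3
        · by_cases hvb : v = b
          · exact Or.inl hvb
          · exact Or.inr (Or.inr (Or.inr ⟨h1, h2, hvb, h4, h5⟩))
      · rintro (rfl | rfl | rfl | ⟨h1, h2, h3, h4, h5⟩)
        · exact ⟨Or.inr (Or.inr (Or.inr vb)), hab.symm, wb.symm, hbc, hbd⟩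
        · exact ⟨Or.inr (Or.inl rfl), sa, sw, sc, sd⟩
        · exact ⟨Or.inl rfl, ua, uw, uc, ud⟩
        · exact ⟨Or.inr (Or.inr (Or.inr h1)), h2, fun h => hw (h ▸ h1), h4, h5⟩
    rw [h1, Finset.insert_val_of_notMem (by simp [sb.symm, ub.symm]), Multiset.map_cons,
      Finset.insert_val_of_notMem (by simp [hsT, us.symm]), Multiset.map_cons,
      Finset.insert_val_of_notMem (by simp [huT]), Multiset.map_cons]
    congr 1
    · rw [hd3, hT2', hd2, hT1, hd1]; simp [ub.symm, sb.symm, wb.symm, hb]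
    · congr 1
      · rw [hd3, hT2', hd2]; simp [us.symm, sb, sc, sw]
      · congr 1
        · rw [hd3]; simp
        · rw [← hM]
          apply Multiset.map_congr rfl
          intro v hv
          have hv' : v ∈ verts T \ {a, b, c, d} := hv
          simp only [Finset.mem_sdiff, Finset.mem_insert, Finset.mem_singleton, not_or] at hv'
          obtain ⟨h1, h2, h3, h4, h5⟩ := hv'
          have hvw : v ≠ w := fun h => hw (h ▸ h1)
          have hvs : v ≠ s := fun h => hsT (h ▸ h1)
          have hvu : v ≠ u := fun h => huT (h ▸ h1)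
          rw [hd3, hT2', hd2, hT1, hd1]
          simp [hvw, hvs, hvu, h2, h3, h4]

end Pool.Agent.Helper79.HX
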