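import Pool.Agent.Helper79.HC.Star

/-!
# BLOCK HC-5: pouring

`g_pour`: `a = min A (H - 1 - 2 A - 3 t - b)`, `b5 = A - a`: `g_S p a b5 b t` with
`p = H - 1 - 3 a - 2 b5 - b - 3 t`, new hub `c - (2 a + 3 b5 + b + 3 t + 1) ≥ 1`, rest by `g_zero`
(as `win_pour` in HX/Win.lean).

`dom16`: `n = card C`.  If `2 A + 3 t + b + 1 ≤ H`: `g_pour`.  Otherwise put `X = H - 1` and fill
the hub `H` with the partner `M`, which becomes the new hub, then `star6` (with `α = 0`) for `C`: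
 `X ≤ b`: `g_S 0 0 0 X 0`, new values `(A, t, b - X)`, new hub `M - 1 - X`;
 `b < X ≤ b + 3 t + 2`: `s = min t ((X - b) / 3)`, `p = X - b - 3 s ≤ 2`: `g_S p 0 0 b s`,
   `(A, t - s, 0)`, new hub `M - 1 - b - 3 s`;
 `X > b + 3 t + 2`: `r = X - b - 3 t ≤ 2 A`, `b5 = r / 2`, `p = r % 2`: `g_S p 0 b5 b t`,
   `(A - b5, 0, 0)`, new hub `M - 1 - 3 b5 - b - 3 t` (the condition on `A` in `star6` is replaced
   by `t = 0 ∧ α = 0`).

`nearpour6`: if `2 A + 3 t + b + 6 ≤ H`: `g_pour` (with `c := c1`, and `c2 ::ₘ C` as rest).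
Otherwise, if `A < (H - 1) / 3`: `Y = H - 1 - 3 A`, `q = min b Y`, `s = (Y - q) / 3`,
`p = (Y - q) % 3`: `g_S p A 0 q s`, new hub `c1 - 1 - 2 A - q - 3 s`, then `g_pour` with `c2` and
`(0, t - s, b - q)`.  If `(H - 1) / 3 ≤ A`: `g_S ((H - 1) % 3) ((H - 1) / 3) 0 0 0`, new hub
`c1 - 1 - 2 * ((H - 1) / 3)`, then `g_pour` with `c2` and `(A - (H - 1) / 3, t, b)`.
(Compare `nearpour` in HY/Fill.lean.)
-/

namespace Pool.Agent.Helper79.HC

open Finset Pool.Agent.Helper79.HX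

theorem g_pour {H c A t b : ℕ} {C : Multiset ℕ} (hC : ∀ c' ∈ C, 3 ≤ c')
    (h1 : 2 * A + 3 * t + b + 1 ≤ H) (h2 : 2 * A + 3 * t + b + 2 ≤ c)
    (h3 : 5 * A + 6 * t + 2 * b + 3 ≤ H + c) : WinG H (c ::ₘ C) A (2 * t) b := by
  obtain ⟨a, ha⟩ : ∃ a, a = min A (H - 1 - 2 * A - 3 * t - b) := ⟨_, rfl⟩
  obtain ⟨b5, hb⟩ : ∃ b5, b5 = A - a := ⟨_, rfl⟩
  have h5 := g_zero C (c - 2 * a - 3 * b5 - b - 3 * t - 2) hC
  refine (g_S (H - 1 - 3 * a - 2 * b5 - b - 3 * t) a b5 b t h5).congr ?_ ?_ ?_ ?_ ?_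
  · omega
  · congr 1; omega
  · omega
  · omega
  · omega

theorem dom16 {H M A t b : ℕ} {C : Multiset ℕ} (hC : ∀ c ∈ C, 20 ≤ c)
    (hA : 2 * Multiset.card C + 1 ≤ A) (hH : 1 ≤ H)
    (h1 : 3 * A + 3 * t + b + 10 * (Multiset.card C + 1) + 10 ≤ M)
    (h2 : 2 * A + 3 * t + b + 20 * (Multiset.card C + 1) + 10 ≤ H + C.sum) :
    WinG H (M ::ₘ C) A (2 * t) b := by
  have hC3 : ∀ c ∈ C, 3 ≤ c := fun c hc => le_trans (by norm_num) (hC c hc)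
  rcases Nat.lt_or_ge H (2 * A + 3 * t + b + 1) with d | d
  swap
  · exact g_pour hC3 d (by omega) (by omega)
  rcases Nat.lt_or_ge b (H - 1) with d1 | d1
  swap
  · -- `H - 1 ≤ b`
    have h5 : WinG (M - 1 - (H - 1)) C A (0 + 2 * t) (b - (H - 1)) :=
      star6 (Multiset.card C) C _ A 0 t (b - (H - 1)) rfl hC (Or.inr hA) (by omega) (by omega)
    exact (g_S 0 0 0 (H - 1) 0 h5).congr (by omega) (by congr 1; omega) (by omega) (by omega)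
      (by omega)
  rcases Nat.lt_or_ge (b + 3 * t + 2) (H - 1) with d2 | d2
  swap
  · obtain ⟨s, hs⟩ : ∃ s, s = min t ((H - 1 - b) / 3) := ⟨_, rfl⟩
    have h5 : WinG (M - 1 - b - 3 * s) C A (0 + 2 * (t - s)) 0 :=
      star6 (Multiset.card C) C _ A 0 (t - s) 0 rfl hC (Or.inr hA) (by omega) (by omega)
    exact (g_S (H - 1 - b - 3 * s) 0 0 b s h5).congr (by omega) (by congr 1; omega) (by omega)
      (by omega) (by omega)
  · obtain ⟨r, hr⟩ : ∃ r, r = H - 1 - b - 3 * t := ⟨_, rfl⟩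
    have h5 : WinG (M - 1 - 3 * (r / 2) - b - 3 * t) C (A - r / 2) (0 + 2 * 0) 0 :=
      star6 (Multiset.card C) C _ (A - r / 2) 0 0 0 rfl hC (Or.inl ⟨rfl, rfl⟩) (by omega)
        (by omega)
    exact (g_S (r % 2) 0 (r / 2) b t h5).congr (by omega) (by congr 1; omega) (by omega)
      (by omega) (by omega)

theorem nearpour6 {H A t b c1 c2 : ℕ} {C : Multiset ℕ} (hA : 6 ≤ A) (hC : ∀ c ∈ C, 3 ≤ c)
    (hH : 1 ≤ H) (h1 : 3 * A + 3 * t + b ≤ c1 + 1) (h2 : 3 * A + 3 * t + b ≤ c2 + 1) :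
    WinG H (c1 ::ₘ c2 ::ₘ C) A (2 * t) b := by
  have hC2 : ∀ c ∈ c2 ::ₘ C, 3 ≤ c := by
    intro c hc
    rcases Multiset.mem_cons.1 hc with h | h
    · omega
    · exact hC c h
  rcases Nat.lt_or_ge H (2 * A + 3 * t + b + 6) with d | d
  swap
  · exact g_pour hC2 (by omega) (by omega) (by omega)
  rcases Nat.lt_or_ge A ((H - 1) / 3) with e | e
  · obtain ⟨Y, hY⟩ : ∃ Y, Y = H - 1 - 3 * A := ⟨_, rfl⟩
    obtain ⟨q, hq⟩ : ∃ q, q = min b Y := ⟨_, rfl⟩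
    obtain ⟨s, hs⟩ : ∃ s, s = (Y - q) / 3 := ⟨_, rfl⟩
    obtain ⟨p, hp⟩ : ∃ p, p = (Y - q) % 3 := ⟨_, rfl⟩
    have h5 : WinG (c1 - 1 - 2 * A - q - 3 * s) (c2 ::ₘ C) 0 (2 * (t - s)) (b - q) :=
      g_pour hC (by omega) (by omega) (by omega)
    exact (g_S p A 0 q s h5).congr (by omega) (by congr 1; omega) (by omega) (by omega)
      (by omega)
  · have h5 : WinG (c1 - 1 - 2 * ((H - 1) / 3)) (c2 ::ₘ C) (A - (H - 1) / 3) (2 * t) b :=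
      g_pour hC (by omega) (by omega) (by omega)
    exact (g_S ((H - 1) % 3) ((H - 1) / 3) 0 0 0 h5).congr (by omega) (by congr 1; omega)
      (by omega) (by omega) (by omega)

end Pool.Agent.Helper79.HC
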