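import Pool.Agent.Helper79.HC.Step

/-!
# BLOCK HC-4: a dominant hub

Units of a chain between the hub and a partner `c` (load on the hub, load on the partner):
T5 `(3, 2)` (parameter `a`) or `(2, 3)` (parameter `b`), T66 `(3, 3)` (parameter `s`), quadrangle
`(1, 1)` (parameter `q`), and, in the long steps `g_SL`, `g_LL`, one T5 `(3, 2)` followed by `α`
units `(2, 1)` and `β` units `(1, 2)`.

Proof of `star6`.  Put `R = 2 A + α + 3 t + b`.
(0) `t = 0, α = 0`: `g_of_win` and `win_dom`.
Otherwise `2 n + 1 ≤ A` and induction on `n` (`C` is not empty as `20 ≤ C.sum`); write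
`C = c ::ₘ C'`.
(P) `R + 3 ≤ c`: put everything between the hub and `c`: `g_S p A 0 b t` with
`p = H - 1 - (3 A + b + 3 t)` (if `α = 0`), or `g_SL p (A - 1) 0 b t α 0`; the new hub is
`c - 1 - R ≥ 2`, and `g_zero` closes the rest.
(F) `c ≤ R + 2`: fill `c` exactly, `X = c - 1`, `19 ≤ X ≤ R + 1`, by `g_L` or `g_LL`, and use the
induction hypothesis for `C'` (with `n - 1`); the new values are given in each case:
 (I) `X ≤ b`: `g_L 0 0 X 0`; `(A, α, t, b - X)`.
 (II) `b < X ≤ b + 3 t`, `r = X - b = 3 k + ρ`: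
   `ρ = 0`: `g_L 0 0 b k`, `(A, α, t - k, 0)`;
   `ρ = 2`: `g_L 1 0 b k`, `(A - 1, α, t - k, 0)`;
   `ρ = 1`, `k ≥ 1`: `g_L 2 0 b (k - 1)`, `(A - 2, α, t - k + 1, 0)`;
   `r = 1`: `g_L 1 0 (b - 1) 0`, `(A - 1, α, t, 1)` (`b ≥ 18` since `X = b + 1 ≥ 19`).
 (III) `X > b + 3 t`, `r = X - b - 3 t ≥ 1`:
   `r = 1`: if `t ≥ 1`: `g_L 2 0 b (t - 1)`, `(A - 2, α, 1, 0)`; if `t = 0` (then `b ≥ 18`):
     `g_L 1 0 (b - 1) 0`, `(A - 1, α, 0, 1)`;
   `r ≥ 2`, `α = 0`: `r` even: `g_L (r / 2) 0 b t`; `r` odd: `g_L ((r - 3) / 2) 1 b t`; at most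
     `A` T5 are used since `r ≤ 2 A + 1`; the new values are `(A - r / 2, 0, 0, 0)`, case (0);
   `r ≥ 2`, `α ≥ 1`, `r ≤ α + 2`: `g_LL 0 0 b t (r - 2) 0`, `(A - 1, α - (r - 2), 0, 0)`;
   `α ≥ 1`, `r > α + 2`: `r - α` even: `g_LL ((r - 2 - α) / 2) 0 b t α 0`; `r - α` odd:
     `g_LL ((r - 3 - α) / 2) 0 b t (α - 1) 1`; the new values are `(A - 1 - .., 0, 0, 0)`,
     case (0) (`r ≤ 2 A + α + 1`, so at most `A` T5 are used).
In each case the load on the hub is at most `3 (T5) + 2 (T6) + 3 (T66) + (quads)` used, and the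
load `X` on `c` exceeds `2 (T5) + (T6) + 3 (T66) + (quads)` used by at most 1, so the two
inequalities are inherited with `n - 1`; `A' ≥ 2 (n - 1) + 1` unless the new `t` and `α` are 0.
-/

namespace Pool.Agent.Helper79.HC

open Finset Pool.Agent.Helper79.HX

theorem star6 : ∀ (n : ℕ) (C : Multiset ℕ) (H A α t b : ℕ), Multiset.card C = n →
    (∀ c ∈ C, 20 ≤ c) → ((t = 0 ∧ α = 0) ∨ 2 * n + 1 ≤ A) →
    3 * A + 2 * α + 3 * t + b + 10 * (n + 1) ≤ H →
    2 * A + α + 3 * t + b + 20 * (n + 1) ≤ C.sum → WinG H C A (α + 2 * t) b := by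
  intro n
  induction n with
  | zero =>
    intro C H A α t b hn _ _ _ h2
    rw [Multiset.card_eq_zero] at hn
    subst hn
    rw [Multiset.sum_zero] at h2
    omega
  | succ n ih =>
    intro C H A α t b hn hC h0 h1 h2
    by_cases hz : t = 0 ∧ α = 0
    · obtain ⟨rfl, rfl⟩ := hz
      exact g_of_win (win_dom (fun c hc => (by norm_num : 3 ≤ 20).trans (hC c hc)) (by omega) (by omega))
    · have hA : 2 * (n + 1) + 1 ≤ A := h0.resolve_left hz
      have hne : C ≠ 0 := by
        rintro rfl
        rw [Multiset.card_zero] at hn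
        omega
      obtain ⟨c, hc⟩ := Multiset.exists_mem_of_ne_zero hne
      obtain ⟨C', rfl⟩ := Multiset.exists_cons_of_mem hc
      rw [Multiset.card_cons] at hn
      have hn' : Multiset.card C' = n := by omega
      have hc20 := hC c (Multiset.mem_cons_self c C')
      have hC' : ∀ c' ∈ C', 20 ≤ c' := fun c' h => hC c' (Multiset.mem_cons_of_mem h)
      have hC3 : ∀ c' ∈ C', 3 ≤ c' := fun c' h => (by norm_num : 3 ≤ 20).trans (hC' c' h)
      rw [Multiset.sum_cons] at h2
      have key : ∀ (H' A' α' t' b' : ℕ), ((t' = 0 ∧ α' = 0) ∨ 2 * n + 1 ≤ A') →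
          3 * A' + 2 * α' + 3 * t' + b' + 10 * (n + 1) ≤ H' →
          2 * A' + α' + 3 * t' + b' + 20 * (n + 1) ≤ C'.sum → WinG H' C' A' (α' + 2 * t') b' :=
        fun H' A' α' t' b' => ih C' H' A' α' t' b' hn' hC'
      rcases Nat.lt_or_ge c (2 * A + α + 3 * t + b + 3) with hF | hP
      swap
      · -- (P)
        have h5 : WinG (c - 1 - (2 * A + α + 3 * t + b)) C' 0 0 0 := by
          have h6 := g_zero C' (c - 1 - (2 * A + α + 3 * t + b) - 1) hC3
          exact h6.congr (by omega) rfl rfl rfl rfl
        rcases Nat.eq_zero_or_pos α with rfl | hα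
        · exact (g_S (H - 1 - (3 * A + b + 3 * t)) A 0 b t h5).congr (by omega) (by congr 1; omega) (by omega) (by omega) (by omega)
        · exact (g_SL (H - (3 * A + b + 3 * t + 2 * α + 1)) (A - 1) 0 b t α 0 h5).congr (by omega) (by congr 1; omega) (by omega) (by omega) (by omega)
      · rcases Nat.lt_or_ge b (c - 1) with h3 | h3
        swap
        · -- (I)
          exact (g_L 0 0 (c - 1) 0 (key (H - c) A α t (b - (c - 1)) (Or.inr (by omega)) (by omega)
            (by omega))).congr (by omega) (by congr 1; omega) (by omega) (by omega) (by omega)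
        · rcases Nat.lt_or_ge (b + 3 * t) (c - 1) with h4 | h4
          swap
          · -- (II)
            obtain ⟨k, ρ, hk, hρ⟩ : ∃ k ρ, c - 1 - b = 3 * k + ρ ∧ ρ < 3 :=
              ⟨(c - 1 - b) / 3, (c - 1 - b) % 3, by omega, by omega⟩
            have hρ3 : ρ = 0 ∨ ρ = 1 ∨ ρ = 2 := by omega
            rcases hρ3 with rfl | rfl | rfl
            · exact (g_L 0 0 b k (key (H - c) A α (t - k) 0 (Or.inr (by omega)) (by omega)
                (by omega))).congr (by omega) (by congr 1; omega) (by omega) (by omega) (by omega)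
            · rcases Nat.eq_zero_or_pos k with rfl | hk1
              · exact (g_L 1 0 (b - 1) 0 (key (H - 3 - b) (A - 1) α t 1 (Or.inr (by omega)) (by omega)
                  (by omega))).congr (by omega) (by congr 1; omega) (by omega) (by omega) (by omega)
              · exact (g_L 2 0 b (k - 1) (key (H - 6 - b - 3 * (k - 1) - 1) (A - 2) α (t - k + 1) 0
                  (Or.inr (by omega)) (by omega) (by omega))).congr (by omega) (by congr 1; omega) (by omega) (by omega) (by omega)
            · exact (g_L 1 0 b k (key (H - 3 - b - 3 * k - 1) (A - 1) α (t - k) 0 (Or.inr (by omega))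
                (by omega) (by omega))).congr (by omega) (by congr 1; omega) (by omega) (by omega) (by omega)
          · -- (III)
            obtain ⟨r, hr⟩ : ∃ r, c = b + 3 * t + r + 1 := ⟨c - 1 - (b + 3 * t), by omega⟩
            have hr1 : 1 ≤ r := by omega
            rcases Nat.lt_or_ge r 2 with h5 | h5
            · have h6 : r = 1 := by omega
              subst h6
              rcases Nat.eq_zero_or_pos t with rfl | ht
              · exact (g_L 1 0 (b - 1) 0 (key (H - 3 - b) (A - 1) α 0 1 (Or.inr (by omega)) (by omega)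
                  (by omega))).congr (by omega) (by congr 1; omega) (by omega) (by omega) (by omega)
              · exact (g_L 2 0 b (t - 1) (key (H - 6 - b - 3 * (t - 1) - 1) (A - 2) α 1 0
                  (Or.inr (by omega)) (by omega) (by omega))).congr (by omega) (by congr 1; omega) (by omega) (by omega) (by omega)
            · rcases Nat.eq_zero_or_pos α with rfl | hα
              · rcases Nat.even_or_odd' r with ⟨r', h6 | h6⟩
                · exact (g_L r' 0 b t (key (H - 3 * r' - b - 3 * t - 1) (A - r') 0 0 0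
                    (Or.inl ⟨rfl, rfl⟩) (by omega) (by omega))).congr (by omega) (by congr 1; omega) (by omega) (by omega) (by omega)
                · exact (g_L (r' - 1) 1 b t (key (H - 3 * (r' - 1) - 2 - b - 3 * t - 1) (A - r') 0 0 0
                    (Or.inl ⟨rfl, rfl⟩) (by omega) (by omega))).congr (by omega) (by congr 1; omega) (by omega) (by omega) (by omega)
              · rcases Nat.lt_or_ge (α + 2) r with h6 | h6
                swap
                · exact (g_LL 0 0 b t (r - 2) 0 (key (H - b - 3 * t - 3 - 2 * (r - 2) - 1) (A - 1)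
                    (α - (r - 2)) 0 0 (Or.inr (by omega)) (by omega) (by omega))).congr (by omega) (by congr 1; omega) (by omega) (by omega) (by omega)
                · rcases Nat.even_or_odd' (r - α) with ⟨e, h7 | h7⟩
                  · exact (g_LL (e - 1) 0 b t α 0 (key (H - 3 * (e - 1) - b - 3 * t - 3 - 2 * α - 1)
                      (A - e) 0 0 0 (Or.inl ⟨rfl, rfl⟩) (by omega) (by omega))).congr (by omega) (by congr 1; omega) (by omega) (by omega) (by omega)
                  · exact (g_LL (e - 1) 0 b t (α - 1) 1 (key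
                      (H - 3 * (e - 1) - b - 3 * t - 3 - 2 * (α - 1) - 1 - 1) (A - e) 0 0 0
                      (Or.inl ⟨rfl, rfl⟩) (by omega) (by omega))).congr (by omega) (by congr 1; omega) (by omega) (by omega) (by omega)

end Pool.Agent.Helper79.HC
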