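import Pool.Agent.Helper79.HY.Stage0
import Pool.Agent.Helper79.HC.Moves

/-!
# BLOCK HC-2: chains with hexagons and winning states with hexagons

`Conf.hexes`: induction on `s`; one unit is `h.move3.move1` (degrees `z + 2 + 1`, `3`, `x + 2 + 1`,
new degrees `6, 6, 3, 3`).  `Conf2.hexes`: one unit is `h.move3.move`.

`Conf.long`: `h.move2 : Conf (z + 2) 4 (x + 1) (5 ::ₘ 3 ::ₘ M)`; then `α` times `move2` on a
configuration with middle degree 4 (`(z + 2) 4 (x + 1)`, new degrees `6, 3`); then `β` times the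
mirrored move (`h.swap.rot.swap` exchanges the first and the third degree, for every middle degree);
then `move1` (`(z + 1) 3 (x + 1)`, new degree 5).

The theorems `g_*` are the analogues of `win_*` in HX/Win.lean, HX/Small.lean, HY/Ear.lean; their
proofs are the same with the new chains (end of the proofs: `refine ⟨_, hp'.congr ?_⟩; intro k;
simp only [Multiset.count_add, Multiset.count_cons, ..., Multiset.replicate_add]; omega`).
`g_S`: `((((hz.grow p).tris a).tris2 b).quads q).hexes s).sw`.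
`g_L`: `((((hz.tris a).tris2 b).quads q).hexes s).swap.move1`.
`g_SL`, `g_LL`: the same with `.long α β` in addition.
`g_zero`: induction on `C` with `g_S H 0 0 0 0`, as `win_zero`.
-/

namespace Pool.Agent.Helper79.HX

open Finset

theorem Conf.hexes {z x : ℕ} {M : Multiset ℕ} (h : Conf z 3 x M) (s : ℕ) :
    Conf (z + 3 * s) 3 (x + 3 * s) (M + Multiset.replicate (2 * s) 3 +
      Multiset.replicate (2 * s) 6) := by
  induction s with
  | zero => simpa using h
  | succ s ih =>
    have h1 : Conf (z + 3 * s + 2 + 1) 3 (x + 3 * s + 2 + 1) _ := ih.move3.move1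
    have e1 : z + 3 * s + 2 + 1 = z + 3 * (s + 1) := by ring
    have e2 : x + 3 * s + 2 + 1 = x + 3 * (s + 1) := by ring
    rw [e1, e2] at h1
    refine h1.congr ?_
    intro k
    have e3 : 2 * (s + 1) = 2 * s + 1 + 1 := by ring
    rw [e3]
    simp only [Multiset.count_add, Multiset.count_cons, Multiset.replicate_succ, Nat.reduceAdd]
    omega

theorem Conf2.hexes {z v x : ℕ} {M : Multiset ℕ} (h : Conf2 z 3 v x M) (s : ℕ) :
    Conf2 (z + 3 * s) 3 (v + 3 * s) x (M + Multiset.replicate (2 * s) 3 +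
      Multiset.replicate (2 * s) 6) := by
  induction s with
  | zero => simpa using h
  | succ s ih =>
    have h1 : Conf2 (z + 3 * s + 2 + 1) 3 (v + 3 * s + 2 + 1) x _ := ih.move3.move
    have e1 : z + 3 * s + 2 + 1 = z + 3 * (s + 1) := by ring
    have e2 : v + 3 * s + 2 + 1 = v + 3 * (s + 1) := by ring
    rw [e1, e2] at h1
    refine h1.congr ?_
    intro k
    have e3 : 2 * (s + 1) = 2 * s + 1 + 1 := by ring
    rw [e3]
    simp only [Multiset.count_add, Multiset.count_cons, Multiset.replicate_succ, Nat.reduceAdd]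
    omega

theorem Conf.long {z x : ℕ} {M : Multiset ℕ} (h : Conf z 3 x M) (α β : ℕ) :
    Conf (z + 3 + 2 * α + β) 3 (x + 2 + α + 2 * β) (M + Multiset.replicate (1 + α + β) 3 +
      Multiset.replicate 2 5 + Multiset.replicate (α + β) 6) := by
  have h1 : Conf (z + 2) 4 (x + 1) (5 ::ₘ 3 ::ₘ M) := h.move2
  have h2 : ∀ (z x : ℕ) (M : Multiset ℕ), Conf z 4 x M → ∀ α : ℕ,
      Conf (z + 2 * α) 4 (x + α) (M + Multiset.replicate α 3 + Multiset.replicate α 6) := by
    intro z x M h α
    induction α with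
    | zero => simpa using h
    | succ α ih =>
      have h1 : Conf (z + 2 * α + 2) 4 (x + α + 1) _ := ih.move2
      have e1 : z + 2 * α + 2 = z + 2 * (α + 1) := by ring
      have e2 : x + α + 1 = x + (α + 1) := by ring
      rw [e1, e2] at h1
      refine h1.congr ?_
      intro k
      simp only [Multiset.count_add, Multiset.count_cons, Multiset.replicate_succ, Nat.reduceAdd]
      omega
  have h3 := h2 _ _ _ h1 α
  have h4 := h2 _ _ _ h3.swap.rot.swap β
  have h5 := h4.swap.rot.swap.move1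
  have e1 : z + 2 + 2 * α + β + 1 = z + 3 + 2 * α + β := by ring
  have e2 : x + 1 + α + 2 * β + 1 = x + 2 + α + 2 * β := by ring
  rw [e1, e2] at h5
  refine h5.congr ?_
  intro k
  simp only [Multiset.count_add, Multiset.count_cons, Multiset.replicate_add,
    Multiset.replicate_succ, Multiset.replicate_zero, Multiset.count_zero, Nat.reduceAdd]
  omega

end Pool.Agent.Helper79.HX

namespace Pool.Agent.Helper79.HC

open Finset Pool.Agent.Helper79.HX

/-- As `Win`, with `X` additional triangles and `X` hexagons. -/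
def WinG (H : ℕ) (C : Multiset ℕ) (A X B : ℕ) : Prop :=
  ∀ (z : ℕ) (M : Multiset ℕ), Conf z 3 4 M → ∃ p, Fin' (M + {z + H} +
    C.map (fun c => c + 4) + Multiset.replicate (A + X + 1) 3 + Multiset.replicate (B + 1) 4 +
    Multiset.replicate p 5 + Multiset.replicate X 6)

/-- As `Win5`, with `X` additional triangles and `X` hexagons. -/
def WinG5 (C : Multiset ℕ) (A X B : ℕ) : Prop :=
  ∀ (M : Multiset ℕ), Conf 5 3 4 M → ∃ p, Fin' (M +
    C.map (fun c => c + 4) + Multiset.replicate (A + X + 1) 3 + Multiset.replicate (B + 1) 4 +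
    Multiset.replicate p 5 + Multiset.replicate X 6)

theorem WinG.congr {H H' : ℕ} {C C' : Multiset ℕ} {A A' X X' B B' : ℕ} (h : WinG H C A X B)
    (e1 : H = H') (e2 : C = C') (e3 : A = A') (e4 : X = X') (e5 : B = B') :
    WinG H' C' A' X' B' := by
  subst e1 e2 e3 e4 e5; exact h

theorem g_of_win {H : ℕ} {C : Multiset ℕ} {A B : ℕ} (h : Win H C A B) : WinG H C A 0 B := by
  intro z M hz
  obtain ⟨p, hp⟩ := h _ _ hz
  refine ⟨p, hp.congr ?_⟩
  intro k
  simp only [Multiset.count_add, Multiset.replicate_zero, Multiset.count_zero, Nat.add_zero]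

theorem g5_of_g {c : ℕ} {C : Multiset ℕ} {A X B : ℕ} (hc : 1 ≤ c) (h : WinG (c - 1) C A X B) :
    WinG5 (c ::ₘ C) A X B := by
  intro M hM
  obtain ⟨p, hp⟩ := h _ _ hM
  have e : 5 + (c - 1) = c + 4 := by omega
  rw [e] at hp
  refine ⟨p, hp.congr ?_⟩
  intro k
  simp only [Multiset.count_add, Multiset.count_cons, Multiset.count_singleton,
    Multiset.map_cons]
  omega

theorem g5_close {c : ℕ} {C : Multiset ℕ} {A X B : ℕ} (hc : 3 ≤ c) (h : WinG5 C A X B) :
    WinG5 (c ::ₘ C) A X B := by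
  intro M hM
  obtain ⟨p, hp⟩ := hM.close (k := c + 4) (by omega)
  obtain ⟨p', hp'⟩ := h _ hp
  refine ⟨p + p', hp'.congr ?_⟩
  intro k
  simp only [Multiset.count_add, Multiset.count_cons, Multiset.count_singleton,
    Multiset.map_cons, Multiset.replicate_add]
  omega

theorem g_S {H' : ℕ} {C : Multiset ℕ} {A' X' B' : ℕ} (p a b q s : ℕ) (h : WinG H' C A' X' B') :
    WinG (p + 3 * a + 2 * b + q + 3 * s + 1) ((H' + 2 * a + 3 * b + q + 3 * s + 1) ::ₘ C)
      (A' + a + b) (X' + 2 * s) (B' + q) := by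
  intro z M hz
  have h1 := (((((hz.grow p).tris a).tris2 b).quads q).hexes s).sw
  obtain ⟨p', hp'⟩ := h _ _ h1
  have e1 : z + p + 3 * a + 2 * b + q + 3 * s + 1 = z + (p + 3 * a + 2 * b + q + 3 * s + 1) := by
    ring
  have e2 : 4 + 2 * a + 3 * b + q + 3 * s + 1 + H' = H' + 2 * a + 3 * b + q + 3 * s + 1 + 4 := by
    ring
  rw [e1, e2] at hp'
  refine ⟨p + 2 * a + 2 * b + p', hp'.congr ?_⟩
  intro k
  simp only [Multiset.count_add, Multiset.count_cons, Multiset.count_singleton,
    Multiset.map_cons, Multiset.replicate_add]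
  omega

theorem g_L {H' : ℕ} {C : Multiset ℕ} {A' X' B' : ℕ} (a b q s : ℕ) (h : WinG H' C A' X' B') :
    WinG (H' + 3 * a + 2 * b + q + 3 * s + 1) ((2 * a + 3 * b + q + 3 * s + 1) ::ₘ C)
      (A' + a + b) (X' + 2 * s) (B' + q) := by
  intro z M hz
  have h1 : Conf (z + 3 * a + 2 * b + q + 3 * s + 1) 3 4 _ :=
    ((((hz.tris a).tris2 b).quads q).hexes s).swap.move1
  obtain ⟨p', hp'⟩ := h _ _ h1
  have e1 : z + 3 * a + 2 * b + q + 3 * s + 1 + H' = z + (H' + 3 * a + 2 * b + q + 3 * s + 1) := by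
    ring
  have e2 : 4 + 2 * a + 3 * b + q + 3 * s + 1 = 2 * a + 3 * b + q + 3 * s + 1 + 4 := by ring
  rw [e1, e2] at hp'
  refine ⟨2 * a + 2 * b + p', hp'.congr ?_⟩
  intro k
  simp only [Multiset.count_add, Multiset.count_cons, Multiset.count_singleton,
    Multiset.map_cons, Multiset.replicate_add]
  omega

theorem g_SL {H' : ℕ} {C : Multiset ℕ} {A' X' B' : ℕ} (p a b q s α β : ℕ)
    (h : WinG H' C A' X' B') :
    WinG (p + 3 * a + 2 * b + q + 3 * s + 3 + 2 * α + β + 1)
      ((H' + 2 * a + 3 * b + q + 3 * s + 2 + α + 2 * β + 1) ::ₘ C)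
      (A' + a + b + 1) (X' + 2 * s + α + β) (B' + q) := by
  intro z M hz
  have h1 := ((((((hz.grow p).tris a).tris2 b).quads q).hexes s).long α β).sw
  obtain ⟨p', hp'⟩ := h _ _ h1
  have e1 : z + p + 3 * a + 2 * b + q + 3 * s + 3 + 2 * α + β + 1 =
      z + (p + 3 * a + 2 * b + q + 3 * s + 3 + 2 * α + β + 1) := by ring
  have e2 : 4 + 2 * a + 3 * b + q + 3 * s + 2 + α + 2 * β + 1 + H' =
      H' + 2 * a + 3 * b + q + 3 * s + 2 + α + 2 * β + 1 + 4 := by ring
  rw [e1, e2] at hp'
  refine ⟨p + 2 * a + 2 * b + 2 + p', hp'.congr ?_⟩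
  intro k
  simp only [Multiset.count_add, Multiset.count_cons, Multiset.count_singleton,
    Multiset.map_cons, Multiset.replicate_add]
  omega

theorem g_LL {H' : ℕ} {C : Multiset ℕ} {A' X' B' : ℕ} (a b q s α β : ℕ)
    (h : WinG H' C A' X' B') :
    WinG (H' + 3 * a + 2 * b + q + 3 * s + 3 + 2 * α + β + 1)
      ((2 * a + 3 * b + q + 3 * s + 2 + α + 2 * β + 1) ::ₘ C)
      (A' + a + b + 1) (X' + 2 * s + α + β) (B' + q) := by
  intro z M hz
  have h1 : Conf (z + 3 * a + 2 * b + q + 3 * s + 3 + 2 * α + β + 1) 3 4 _ :=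
    (((((hz.tris a).tris2 b).quads q).hexes s).long α β).swap.move1
  obtain ⟨p', hp'⟩ := h _ _ h1
  have e1 : z + 3 * a + 2 * b + q + 3 * s + 3 + 2 * α + β + 1 + H' =
      z + (H' + 3 * a + 2 * b + q + 3 * s + 3 + 2 * α + β + 1) := by ring
  have e2 : 4 + 2 * a + 3 * b + q + 3 * s + 2 + α + 2 * β + 1 =
      2 * a + 3 * b + q + 3 * s + 2 + α + 2 * β + 1 + 4 := by ring
  rw [e1, e2] at hp'
  refine ⟨2 * a + 2 * b + 2 + p', hp'.congr ?_⟩
  intro k
  simp only [Multiset.count_add, Multiset.count_cons, Multiset.count_singleton,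
    Multiset.map_cons, Multiset.replicate_add]
  omega

theorem g_zero (C : Multiset ℕ) : ∀ H, (∀ c ∈ C, 3 ≤ c) → WinG (H + 1) C 0 0 0 := by
  induction C using Multiset.induction_on with
  | empty => intro H _; exact g_of_win (win_nil _)
  | cons c C ih =>
    intro H hc
    have h3 := hc c (by simp)
    have h1 := ih (c - 2) (fun c' h => hc c' (Multiset.mem_cons_of_mem h))
    exact (g_S H 0 0 0 0 h1).congr (by omega) (by congr 1; omega) rfl rfl rfl

end Pool.Agent.Helper79.HC
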