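import Pool.Agent.Helper79.HC.Main6

/-!
# All the faces
-/

namespace Pool.Agent.Helper79.HC

open Finset Pool.Agent.Helper79.HX

set_option maxRecDepth 4000 in
theorem top6 : ∀ (N : ℕ) (F : Multiset ℕ) (A τ b : ℕ), Multiset.card F = N →
    (∀ f ∈ F, 3 ≤ f) → 5 * N + 10 ≤ A → 5 * A + 6 * τ + 2 * b + 200 * N + 200 * N ≤ F.sum →
    (∀ f ∈ F, f + 2 * A + 2 * τ + b + 100 * N ≤ F.sum) → WinG5 F A (2 * τ) b := by
  intro N
  induction N with
  | zero =>
    intro F A τ b hN _ _ hW _
    rw [Multiset.card_eq_zero] at hN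
    subst hN
    rw [Multiset.sum_zero] at hW
    omega
  | succ N ih =>
    intro F A τ b hN h3 hA hW hF
    by_cases hsm : ∃ f ∈ F, f < 20
    · obtain ⟨f, hf, hf20⟩ := hsm
      obtain ⟨F', rfl⟩ := Multiset.exists_cons_of_mem hf
      rw [Multiset.card_cons] at hN
      rw [Multiset.sum_cons] at hW
      have h5 := ih F' A τ b (by omega) (fun x hx => h3 x (Multiset.mem_cons_of_mem hx))
        (by omega) (by omega) (by
          intro x hx
          have := hF x (Multiset.mem_cons_of_mem hx)
          rw [Multiset.sum_cons] at this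
          omega)
      exact g5_close (h3 f (by simp)) h5
    have h20 : ∀ f ∈ F, 20 ≤ f := by
      intro f hf
      by_contra hcon
      exact hsm ⟨f, hf, by omega⟩
    rcases Nat.eq_zero_or_pos N with h0 | h0
    · subst h0
      obtain ⟨y, rfl⟩ := Multiset.card_eq_one.1 hN
      have := hF y (by simp)
      rw [Multiset.sum_singleton] at this
      omega
    obtain ⟨f, m, C', hFe, hmf, hC'⟩ := decomp F (by omega)
    obtain ⟨C, hC⟩ : ∃ C, C = m ::ₘ C' := ⟨_, rfl⟩
    rw [← hC] at hFe
    have hfle : ∀ c ∈ C, c ≤ f := by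
      intro c hc
      rw [hC] at hc
      rcases Multiset.mem_cons.1 hc with h | h
      · omega
      · exact (hC' c h).2
    have hf20 : 20 ≤ f := h20 f (by rw [hFe]; simp)
    have hC20 : ∀ c ∈ C, 20 ≤ c := fun c hc =>
      h20 c (by rw [hFe]; exact Multiset.mem_cons_of_mem hc)
    have hcard : Multiset.card C = N := by
      rw [hFe, Multiset.card_cons] at hN; omega
    have hsum : F.sum = f + C.sum := by rw [hFe, Multiset.sum_cons]
    have hFf := hF f (by rw [hFe]; simp)
    rw [hFe]
    rcases Nat.lt_or_ge C.sum (2 * A + 3 * τ + b + 60 * (N + 1) + 1) with hv | hv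
    · -- a dominant face
      obtain ⟨t, ht1, ht2, ht3⟩ : ∃ t, t ≤ τ ∧ 2 * A + 2 * τ + t + b + 20 * (N + 1) ≤ C.sum ∧
          (t = τ ∨ C.sum ≤ 2 * A + 2 * τ + t + b + 20 * (N + 1)) := by
        rcases Nat.lt_or_ge (C.sum - (2 * A + 2 * τ + b + 20 * (N + 1))) τ with h | h
        · exact ⟨C.sum - (2 * A + 2 * τ + b + 20 * (N + 1)), by omega, by omega, by omega⟩
        · exact ⟨τ, by omega, by omega, by omega⟩
      have h5 := star6 N C (f - 1) A (2 * τ - 2 * t) t b hcard hC20 (Or.inr (by omega))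
        (by rcases ht3 with h | h <;> omega) (by omega)
      exact g5_of_g (by omega) (h5.congr rfl rfl rfl (by omega) rfl)
    · refine g5_of_g (by omega) (main6 N (f - 1) A τ b C hcard hC20 (by omega) (by omega)
        (by omega) (by omega) ?_)
      intro c hc
      have := hfle c hc
      omega

end Pool.Agent.Helper79.HC
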